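import Pool.Agent.Helper34_IR.CoreA

/-!
# IR, module CORE: local mass bound on the torus
-/

set_option autoImplicit false

open scoped BigOperators

noncomputable section

namespace Pool.Agent.IR.H34

open Matrix Pool.Agent.Anderson Pool.Agent.Loc Pool.Agent.BED

section aux

variable {d M : ℕ} [NeZero M]

theorem nd_far {x0 x y : Tor d M} {ρ n0 : ℕ}
    (hx : ∀ i, ((x i - x0 i).valMinAbs).natAbs ≤ ρ)
    (hy : ¬ ∀ i, ((y i - x0 i).valMinAbs).natAbs ≤ ρ + n0) : n0 ≤ nd (x - y) := by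
  push Not at hy
  obtain ⟨i, hi⟩ := hy
  have h1 : (((y i - x i) + (x i - x0 i)).valMinAbs).natAbs ≤
      ((y i - x i).valMinAbs).natAbs + ((x i - x0 i).valMinAbs).natAbs :=
    (ZMod.natAbs_valMinAbs_add_le _ _).trans (Int.natAbs_add_le _ _)
  rw [sub_add_sub_cancel] at h1
  have h2 : (((y - x) i).valMinAbs).natAbs ≤ nd (y - x) := by
    unfold nd
    exact Finset.single_le_sum (f := fun i => (((y - x) i).valMinAbs).natAbs)
      (fun _ _ => Nat.zero_le _) (Finset.mem_univ i)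
  rw [Pi.sub_apply] at h2
  rw [nd_sub_comm]
  have h3 := hx i
  omega

theorem bx_add (x0 : Tor d M) (ρ : ℕ) (u v : Tor d M → ℝ) :
    bx x0 ρ (u + v) = bx x0 ρ u + bx x0 ρ v := by
  funext x
  rw [Pi.add_apply]
  unfold bx
  split_ifs <;> simp

theorem sqn_bx_le (x0 : Tor d M) (ρ : ℕ) (u : Tor d M → ℝ) : sqn (bx x0 ρ u) ≤ sqn u := by
  unfold sqn
  refine Finset.sum_le_sum fun x _ => ?_
  unfold bx
  split_ifs
  · exact le_rfl
  · simpa using sq_nonneg (u x)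

theorem sqn_three {n : Type} [Fintype n] (a b c : n → ℝ) :
    sqn (a + b + c) ≤ 3 * (sqn a + sqn b + sqn c) := by
  unfold sqn
  rw [← Finset.sum_add_distrib, ← Finset.sum_add_distrib, Finset.mul_sum]
  refine Finset.sum_le_sum fun x _ => ?_
  rw [Pi.add_apply, Pi.add_apply]
  nlinarith [sq_nonneg (a x - b x), sq_nonneg (a x - c x), sq_nonneg (b x - c x)]

/-- The tail. -/
theorem tail_bound {l : ℕ} {E C1 : ℝ} {V : Tor d M → ℝ} (hd : 1 ≤ d) (hl : 1 ≤ l) (hC1 : 0 < C1)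
    (hct : ∀ x y, |(GP l E V * (QM d M l)ᵀ) x y| ≤
      C1 * (l : ℝ) ^ 2 * Real.exp (-((nd (x - y) : ℝ) / (3 * d * l))))
    (w : Tor d M → ℝ) (x0 : Tor d M) (ρ n0 : ℕ) :
    sqn (bx x0 ρ (sL d l • (GP l E V *ᵥ ((QM d M l)ᵀ *ᵥ (w - bx x0 (ρ + n0) w))))) ≤
      4 * C1 ^ 2 * ((M : ℝ) ^ d * Real.exp (-((n0 : ℝ) / (3 * d * l)))) ^ 2 * sqn w := by
  set v : Tor d M → ℝ := w - bx x0 (ρ + n0) w with hv
  set t : ℝ := Real.exp (-((n0 : ℝ) / (3 * d * l))) with ht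
  have hd' : (1 : ℝ) ≤ d := by exact_mod_cast hd
  have hl' : (1 : ℝ) ≤ l := by exact_mod_cast hl
  have hsv : sqn v ≤ sqn w := by
    unfold sqn
    refine Finset.sum_le_sum fun x _ => ?_
    rw [hv, Pi.sub_apply]
    unfold bx
    split_ifs
    · simpa using sq_nonneg (w x)
    · simp
  have hcard : (Fintype.card (Tor d M) : ℝ) = (M : ℝ) ^ d := by
    unfold Tor
    rw [Fintype.card_pi]
    simp [ZMod.card]
  have hpt : ∀ x, (bx x0 ρ (sL d l • (GP l E V *ᵥ ((QM d M l)ᵀ *ᵥ v)))) x ^ 2 ≤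
      4 * C1 ^ 2 * ((M : ℝ) ^ d * t ^ 2) * sqn w := by
    intro x
    unfold bx
    split_ifs with hx
    · rw [Pi.smul_apply, smul_eq_mul, mul_pow]
      have h1 : (GP l E V *ᵥ ((QM d M l)ᵀ *ᵥ v)) x = ∑ y,
          (if v y = 0 then 0 else (GP l E V * (QM d M l)ᵀ) x y) * v y := by
        rw [Matrix.mulVec_mulVec]
        unfold Matrix.mulVec dotProduct
        refine Finset.sum_congr rfl fun y _ => ?_
        split_ifs with h0
        · rw [h0]; ring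
        · rfl
      have h2 : (GP l E V *ᵥ ((QM d M l)ᵀ *ᵥ v)) x ^ 2 ≤
          ((M : ℝ) ^ d * (C1 * (l : ℝ) ^ 2 * t) ^ 2) * sqn v := by
        rw [h1]
        refine (Finset.sum_mul_sq_le_sq_mul_sq _ _ _).trans ?_
        refine mul_le_mul_of_nonneg_right ?_ (sqn_nonneg v)
        have h3 : ∀ y : Tor d M, (if v y = 0 then 0 else (GP l E V * (QM d M l)ᵀ) x y) ^ 2 ≤
            (C1 * (l : ℝ) ^ 2 * t) ^ 2 := by
          intro y
          split_ifs with h0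
          · rw [zero_pow two_ne_zero]; positivity
          · rw [← sq_abs]
            refine pow_le_pow_left₀ (abs_nonneg _) ((hct x y).trans ?_) 2
            refine mul_le_mul_of_nonneg_left ?_ (by positivity)
            rw [ht]
            refine Real.exp_le_exp.2 ?_
            rw [neg_le_neg_iff]
            refine div_le_div_of_nonneg_right ?_ (by positivity)
            have h4 : n0 ≤ nd (x - y) := by
              refine nd_far hx ?_
              intro hc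
              apply h0
              rw [hv, Pi.sub_apply]
              unfold bx
              rw [if_pos hc, sub_self]
            exact_mod_cast h4
        calc ∑ y : Tor d M, (if v y = 0 then 0 else (GP l E V * (QM d M l)ᵀ) x y) ^ 2 ≤
            ∑ _y : Tor d M, (C1 * (l : ℝ) ^ 2 * t) ^ 2 := Finset.sum_le_sum fun y _ => h3 y
          _ = (M : ℝ) ^ d * (C1 * (l : ℝ) ^ 2 * t) ^ 2 := by
            rw [Finset.sum_const, Finset.card_univ, nsmul_eq_mul, hcard]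
      have h3 : sL d l ^ 2 * (C1 * (l : ℝ) ^ 2 * t) ^ 2 ≤ 4 * C1 ^ 2 * t ^ 2 := by
        unfold sL
        have e1 : (2 / ((d : ℝ) * (l : ℝ) ^ 2)) ^ 2 * (C1 * (l : ℝ) ^ 2 * t) ^ 2 =
            4 * C1 ^ 2 * t ^ 2 / (d : ℝ) ^ 2 := by
          field_simp
          ring
        rw [e1]
        refine div_le_self (by positivity) (one_le_pow₀ hd')
      calc sL d l ^ 2 * (GP l E V *ᵥ ((QM d M l)ᵀ *ᵥ v)) x ^ 2 ≤
          sL d l ^ 2 * (((M : ℝ) ^ d * (C1 * (l : ℝ) ^ 2 * t) ^ 2) * sqn v) :=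
            mul_le_mul_of_nonneg_left h2 (sq_nonneg _)
        _ = (sL d l ^ 2 * (C1 * (l : ℝ) ^ 2 * t) ^ 2) * ((M : ℝ) ^ d * sqn v) := by ring
        _ ≤ (4 * C1 ^ 2 * t ^ 2) * ((M : ℝ) ^ d * sqn w) := by
            refine mul_le_mul h3 ?_ (mul_nonneg (by positivity) (sqn_nonneg v)) (by positivity)
            exact mul_le_mul_of_nonneg_left hsv (by positivity)
        _ = _ := by ring
    · have := sqn_nonneg w
      rw [zero_pow two_ne_zero]
      positivity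
  calc sqn (bx x0 ρ (sL d l • (GP l E V *ᵥ ((QM d M l)ᵀ *ᵥ v)))) ≤
      ∑ _x : Tor d M, 4 * C1 ^ 2 * ((M : ℝ) ^ d * t ^ 2) * sqn w :=
        Finset.sum_le_sum fun x _ => hpt x
    _ = 4 * C1 ^ 2 * ((M : ℝ) ^ d * t) ^ 2 * sqn w := by
        rw [Finset.sum_const, Finset.card_univ, nsmul_eq_mul, hcard]
        ring

end aux

/-- Module CORE -/
theorem core (hGap : GapStmt) (hCt : CtStmt) (hFour : FourStmt) : CoreStmt := by
  intro d hd
  obtain ⟨C1, hC1, hct⟩ := hCt d hd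
  refine ⟨3 * (8 * d ^ 2 * (6 * d * (d + 1) + 5) + 2 * (4 * C1 ^ 2 + d ^ 2)), by positivity, ?_⟩
  intro M l _ z μ E V b ε Cb hP hFl hb hε hε2 hlε hCb hK hD u r hu x0 ρ
  obtain ⟨hct1, -⟩ := hct M l z μ E V hP hFl
  obtain ⟨-, hpd, -, hGn, hBs, -, -, -⟩ := hGap d M l z μ E V hP hFl
  have hd' : (1 : ℝ) ≤ d := by exact_mod_cast hd
  have hl' : (1 : ℝ) ≤ l := by exact_mod_cast hP.hl
  have hM' : (3 : ℝ) ≤ M := by exact_mod_cast hP.hM
  have hl0 : (0 : ℝ) < l := by linarith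
  have hM0 : (0 : ℝ) < M := by linarith
  have hdet : IsUnit (AP l E V).det := (Matrix.isUnit_iff_isUnit_det _).mp hpd.isUnit
  have hinv : GP l E V * AP l E V = 1 := by
    unfold GP
    exact Matrix.nonsing_inv_mul _ hdet
  -- the resolvent identity
  set w : Tor d M → ℝ := QM d M l *ᵥ u with hw
  have hAP : AP l E V *ᵥ u = r + sL d l • ((QM d M l)ᵀ *ᵥ w) := by
    unfold AP
    rw [Matrix.add_mulVec, hu, Matrix.smul_mulVec, ← Matrix.mulVec_mulVec]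
  have hu2 : u = sL d l • (GP l E V *ᵥ ((QM d M l)ᵀ *ᵥ w)) + GP l E V *ᵥ r := by
    have h1 : GP l E V *ᵥ (AP l E V *ᵥ u) = u := by
      rw [Matrix.mulVec_mulVec, hinv, Matrix.one_mulVec]
    rw [hAP, Matrix.mulVec_add, Matrix.mulVec_smul] at h1
    rw [add_comm]
    exact h1.symm
  have hw2 : w - BB l E V *ᵥ w = QM d M l *ᵥ (GP l E V *ᵥ r) := by
    have h1 : BB l E V *ᵥ w =
        QM d M l *ᵥ (sL d l • (GP l E V *ᵥ ((QM d M l)ᵀ *ᵥ w))) := by
      unfold BB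
      rw [Matrix.smul_mulVec, Matrix.mulVec_smul, ← Matrix.mulVec_mulVec, ← Matrix.mulVec_mulVec]
    rw [h1]
    nth_rewrite 1 [hw]
    nth_rewrite 1 [hu2]
    rw [Matrix.mulVec_add, add_sub_cancel_left]
  have hBt : (BB l E V)ᵀ = BB l E V := by
    ext x y
    rw [Matrix.transpose_apply]
    exact hBs y x
  -- sizes
  set S : ℝ := sqn u + (l : ℝ) ^ 4 * sqn r / ε ^ 2 with hS
  have hsr : 0 ≤ (l : ℝ) ^ 4 * sqn r / ε ^ 2 :=
    div_nonneg (mul_nonneg (by positivity) (sqn_nonneg r)) (by positivity)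
  have hS0 : 0 ≤ S := add_nonneg (sqn_nonneg u) hsr
  have hsw : sqn w ≤ sqn u := sqn_QM_le hP.hl u
  have hGr : sqn (GP l E V *ᵥ r) ≤ (d : ℝ) ^ 2 * ε ^ 2 * S := by
    have e1 : (d * (l : ℝ) ^ 2) ^ 2 * sqn r = (d : ℝ) ^ 2 * ε ^ 2 * ((l : ℝ) ^ 4 * sqn r / ε ^ 2) := by
      field_simp
    refine (hGn r).trans ?_
    rw [e1]
    refine mul_le_mul_of_nonneg_left ?_ (by positivity)
    have := sqn_nonneg u
    linarith
  have hN : NK b ε w ≤ 2 * (d : ℝ) ^ 2 * ε * S := by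
    have h1 := energy_bound hFour b hb hε (BB l E V) hBt hD w _ hw2
    have h2 : sqn (QM d M l *ᵥ (GP l E V *ᵥ r)) ≤ (d * (l : ℝ) ^ 2) ^ 2 * sqn r :=
      (sqn_QM_le hP.hl _).trans (hGn r)
    have h3 : 1 / ε * sqn (QM d M l *ᵥ (GP l E V *ᵥ r)) ≤
        (d : ℝ) ^ 2 * ε * ((l : ℝ) ^ 4 * sqn r / ε ^ 2) := by
      have e1 : (d : ℝ) ^ 2 * ε * ((l : ℝ) ^ 4 * sqn r / ε ^ 2) =
          1 / ε * ((d * (l : ℝ) ^ 2) ^ 2 * sqn r) := by
        field_simp
      rw [e1]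
      exact mul_le_mul_of_nonneg_left h2 (by positivity)
    have h4 : 2 * ε * sqn w ≤ 2 * (d : ℝ) ^ 2 * ε * sqn u := by
      have h5 : 2 * ε * sqn w ≤ 2 * ε * sqn u := mul_le_mul_of_nonneg_left hsw (by positivity)
      have h6 : 2 * ε * sqn u ≤ (d : ℝ) ^ 2 * (2 * ε * sqn u) :=
        le_mul_of_one_le_left (mul_nonneg (by positivity) (sqn_nonneg u)) (one_le_pow₀ hd')
      linarith
    have h7 : 0 ≤ (d : ℝ) ^ 2 * ε * ((l : ℝ) ^ 4 * sqn r / ε ^ 2) :=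
      mul_nonneg (by positivity) hsr
    have e2 : 2 * (d : ℝ) ^ 2 * ε * S = 2 * (d : ℝ) ^ 2 * ε * sqn u +
        2 * ((d : ℝ) ^ 2 * ε * ((l : ℝ) ^ 4 * sqn r / ε ^ 2)) := by
      rw [hS]; ring
    linarith
  -- logarithms
  set Λ : ℝ := Real.log (1 / ε) with hΛ
  set Lg : ℝ := Real.log M with hLg
  have hΛ1 : 1 ≤ 2 * Λ := by
    have h1 : Real.log 2 ≤ Λ := by
      rw [hΛ]
      refine Real.log_le_log (by norm_num) ?_
      rw [le_div_iff₀ hε]
      linarith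
    have h2 := Real.log_two_gt_d9
    linarith
  have hLg1 : 1 ≤ Lg := by
    rw [hLg, Real.le_log_iff_exp_le hM0]
    have := Real.exp_one_lt_d9
    linarith
  -- the radius
  set n0 : ℕ := ⌈3 * (d : ℝ) * l * ((d + 1) * Lg)⌉₊ with hn0
  have hn1 : 3 * (d : ℝ) * l * ((d + 1) * Lg) ≤ n0 := Nat.le_ceil _
  have hn2 : (n0 : ℝ) ≤ 3 * (d : ℝ) * l * ((d + 1) * Lg) + 1 :=
    (Nat.ceil_lt_add_one (by positivity)).le
  have hMε : 1 / (M : ℝ) ≤ ε := by
    rw [div_le_iff₀ hM0]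
    linarith
  have htail : (M : ℝ) ^ d * Real.exp (-((n0 : ℝ) / (3 * d * l))) ≤ ε := by
    have h1 : (d + 1) * Lg ≤ (n0 : ℝ) / (3 * d * l) := by
      rw [le_div_iff₀ (by positivity)]
      linarith
    have h2 : Real.exp (-((n0 : ℝ) / (3 * d * l))) ≤ (1 / (M : ℝ)) ^ (d + 1) := by
      have e1 : (1 / (M : ℝ)) ^ (d + 1) = Real.exp (-((d + 1) * Lg)) := by
        rw [← Real.exp_log (show (0 : ℝ) < 1 / M by positivity), ← Real.exp_nat_mul, one_div,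
          Real.log_inv]
        congr 1
        push_cast
        rw [hLg]
        ring
      rw [e1]
      exact Real.exp_le_exp.2 (neg_le_neg h1)
    calc (M : ℝ) ^ d * Real.exp (-((n0 : ℝ) / (3 * d * l))) ≤
        (M : ℝ) ^ d * (1 / (M : ℝ)) ^ (d + 1) := mul_le_mul_of_nonneg_left h2 (by positivity)
      _ = 1 / (M : ℝ) := by
        rw [pow_succ, ← mul_assoc, ← mul_pow, mul_one_div_cancel hM0.ne', one_pow, one_mul]
      _ ≤ ε := hMε
  -- the three parts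
  set wQ : Tor d M → ℝ := bx x0 (ρ + n0) w with hwQ
  have hdec : u = sL d l • (GP l E V *ᵥ ((QM d M l)ᵀ *ᵥ wQ)) +
      sL d l • (GP l E V *ᵥ ((QM d M l)ᵀ *ᵥ (w - wQ))) + GP l E V *ᵥ r := by
    rw [← smul_add, ← Matrix.mulVec_add, ← Matrix.mulVec_add, add_sub_cancel]
    exact hu2
  have h1 : sqn (bx x0 ρ (sL d l • (GP l E V *ᵥ ((QM d M l)ᵀ *ᵥ wQ)))) ≤ 4 * sqn wQ := by
    refine (sqn_bx_le _ _ _).trans ?_
    rw [sqn_smul]
    have e1 := (hGn ((QM d M l)ᵀ *ᵥ wQ)).trans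
      (mul_le_mul_of_nonneg_left (sqn_QMt_le hP.hl wQ) (sq_nonneg _))
    have e2 : sL d l ^ 2 * ((d * (l : ℝ) ^ 2) ^ 2 * sqn wQ) = 4 * sqn wQ := by
      unfold sL
      field_simp
      ring
    rw [← e2]
    exact mul_le_mul_of_nonneg_left e1 (sq_nonneg _)
  have h2 : sqn (bx x0 ρ (sL d l • (GP l E V *ᵥ ((QM d M l)ᵀ *ᵥ (w - wQ))))) ≤
      4 * C1 ^ 2 * ε ^ 2 * S := by
    refine (tail_bound hd hP.hl hC1 hct1 w x0 ρ n0).trans ?_
    refine mul_le_mul ?_ ?_ (sqn_nonneg w) (by positivity)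
    · refine mul_le_mul_of_nonneg_left ?_ (by positivity)
      exact pow_le_pow_left₀ (by positivity) htail 2
    · linarith
  have h3 : sqn (bx x0 ρ (GP l E V *ᵥ r)) ≤ (d : ℝ) ^ 2 * ε ^ 2 * S :=
    (sqn_bx_le _ _ _).trans hGr
  have h4 : sqn wQ ≤ Cb * (1 + (2 * ((ρ + n0 : ℕ) : ℝ) + 1) / l * Λ) * NK b ε w := by
    refine box_bound hFour b hε hK w x0 (ρ + n0) ?_
    have : 0 ≤ Λ := by linarith
    positivity
  have h5 : 1 + (2 * ((ρ + n0 : ℕ) : ℝ) + 1) / l * Λ ≤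
      (6 * d * (d + 1) + 5) * (Λ * (ρ / l + Lg)) := by
    have hΛ0 : 0 ≤ Λ := by linarith
    have e1 : (2 * ((ρ + n0 : ℕ) : ℝ) + 1) / l ≤ 2 * (ρ / l) + (6 * d * (d + 1) + 3) * Lg := by
      rw [div_le_iff₀ hl0]
      have e2 : (2 * ((ρ : ℝ) / l) + (6 * d * (d + 1) + 3) * Lg) * l =
          2 * ρ + 2 * (3 * (d : ℝ) * l * ((d + 1) * Lg)) + 3 * (Lg * l) := by
        field_simp
        ring
      rw [e2]
      push_cast
      have e3 : 1 ≤ Lg * l := by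
        have := mul_le_mul hLg1 hl' zero_le_one (by linarith)
        linarith
      linarith
    have e4 : (1 : ℝ) ≤ 2 * Λ * Lg := by
      have := mul_le_mul hΛ1 hLg1 zero_le_one (by linarith)
      linarith
    have e5 : (2 * ((ρ + n0 : ℕ) : ℝ) + 1) / l * Λ ≤
        (2 * (ρ / l) + (6 * d * (d + 1) + 3) * Lg) * Λ := mul_le_mul_of_nonneg_right e1 hΛ0
    have e6 : 0 ≤ (6 * (d : ℝ) * (d + 1) + 3) * (Λ * (ρ / l)) := by positivity
    nlinarith
  have h6 : ε ^ 2 * S ≤ 2 * (ε * (Λ * (ρ / l + Lg)) * S) := by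
    have hΛ0 : 0 ≤ Λ := by linarith
    have e1 : 1 ≤ 2 * (Λ * (ρ / l + Lg)) := by
      have e2 : (1 : ℝ) ≤ ρ / l + Lg := by
        have : (0 : ℝ) ≤ ρ / l := by positivity
        linarith
      have := mul_le_mul hΛ1 e2 zero_le_one (by linarith)
      linarith
    have e3 : ε ^ 2 ≤ ε * (2 * (Λ * (ρ / l + Lg))) := by
      rw [pow_two]
      exact mul_le_mul_of_nonneg_left (by linarith) hε.le
    have := mul_le_mul_of_nonneg_right e3 hS0
    linarith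
  -- assembly
  have hgoal : ∑ x, (if ∀ i, ((x i - x0 i).valMinAbs).natAbs ≤ ρ then u x ^ 2 else 0) =
      sqn (bx x0 ρ u) := by
    unfold sqn
    refine Finset.sum_congr rfl fun x _ => ?_
    unfold bx
    by_cases hc : ∀ i, ((x i - x0 i).valMinAbs).natAbs ≤ ρ
    · rw [if_pos hc, if_pos hc]
    · rw [if_neg hc, if_neg hc, zero_pow two_ne_zero]
  rw [hgoal]
  have h7 : sqn (bx x0 ρ u) ≤ 3 * (4 * sqn wQ + 4 * C1 ^ 2 * ε ^ 2 * S +
      (d : ℝ) ^ 2 * ε ^ 2 * S) := by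
    nth_rewrite 1 [hdec]
    rw [bx_add, bx_add]
    refine (sqn_three _ _ _).trans ?_
    linarith
  set Y : ℝ := Λ * (ρ / l + Lg) with hY
  have hY0 : 0 ≤ Y := by
    have hΛ0 : 0 ≤ Λ := by linarith
    positivity
  have h8 : sqn wQ ≤ Cb * ((6 * d * (d + 1) + 5) * Y) * (2 * (d : ℝ) ^ 2 * ε * S) := by
    refine h4.trans ?_
    have e1 : Cb * (1 + (2 * ((ρ + n0 : ℕ) : ℝ) + 1) / l * Λ) ≤
        Cb * ((6 * d * (d + 1) + 5) * Y) := mul_le_mul_of_nonneg_left h5 (by linarith)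
    refine mul_le_mul e1 hN (NK_nonneg _ _ _) ?_
    positivity
  have h9 : ε ^ 2 * S ≤ 2 * (Cb * (ε * Y * S)) := by
    have e1 : ε * Y * S ≤ Cb * (ε * Y * S) := le_mul_of_one_le_left (by positivity) hCb
    linarith
  have h10 : 3 * (8 * (d : ℝ) ^ 2 * (6 * d * (d + 1) + 5) + 2 * (4 * C1 ^ 2 + d ^ 2)) * Cb * ε * Λ *
      (ρ / l + Lg) * S = 3 * (4 * (Cb * ((6 * d * (d + 1) + 5) * Y) * (2 * (d : ℝ) ^ 2 * ε * S)) +
        (4 * C1 ^ 2 + d ^ 2) * (2 * (Cb * (ε * Y * S)))) := by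
    rw [hY]; ring
  rw [h10]
  have h11 := mul_le_mul_of_nonneg_left h9 (show 0 ≤ 4 * C1 ^ 2 + (d : ℝ) ^ 2 by positivity)
  linarith

end Pool.Agent.IR.H34
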