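import Pool.Agent.Helper34_IR.Ct

/-!
# IR, module CORE, part 1: the quadratic form `NK`
-/

set_option autoImplicit false

open scoped BigOperators

noncomputable section

namespace Pool.Agent.IR.H34

open Matrix Pool.Agent.Anderson Pool.Agent.Loc Pool.Agent.BED

variable {d M : ℕ} [NeZero M]

theorem mulM_symm (u : Tor d M → ℝ) : (mulM u)ᵀ = mulM u := by
  ext x y
  rw [Matrix.transpose_apply]
  unfold mulM
  rw [Matrix.of_apply, Matrix.of_apply]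
  congr 1
  refine Finset.sum_congr rfl fun θ _ => ?_
  rw [← cos_ph_neg θ (x - y), neg_sub]

theorem mulM_sub (u v : Tor d M → ℝ) : mulM u - mulM v = mulM (fun θ => u θ - v θ) := by
  ext x y
  unfold mulM
  rw [Matrix.sub_apply, Matrix.of_apply, Matrix.of_apply, Matrix.of_apply, ← sub_div,
    ← Finset.sum_sub_distrib]
  congr 1
  exact Finset.sum_congr rfl fun θ _ => by ring

theorem ft_add_sub (a w : Tor d M → ℝ) (θ : Tor d M) :
    ft (a + w) θ + ft (a - w) θ = 2 * ft a θ + 2 * ft w θ := by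
  unfold ft
  simp only [Pi.add_apply, Pi.sub_apply, add_mul, sub_mul, Finset.sum_add_distrib,
    Finset.sum_sub_distrib]
  ring

theorem NK_add_sub (b : Tor d M → ℝ) (ε : ℝ) (a w : Tor d M → ℝ) :
    NK b ε (a + w) + NK b ε (a - w) = 2 * NK b ε a + 2 * NK b ε w := by
  unfold NK
  rw [← Finset.sum_add_distrib, Finset.mul_sum, Finset.mul_sum, ← Finset.sum_add_distrib]
  refine Finset.sum_congr rfl fun θ _ => ?_
  rw [← mul_add, ft_add_sub]
  ring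

theorem polar (D : Matrix (Tor d M) (Tor d M) ℝ) (hD : Dᵀ = D) (b : Tor d M → ℝ) (ε : ℝ)
    (h : ∀ w, |ip w (D *ᵥ w)| ≤ 1 / 4 * NK b ε w) (a w : Tor d M → ℝ) :
    |ip a (D *ᵥ w)| ≤ 1 / 8 * (NK b ε a + NK b ε w) := by
  have h1 : ip w (D *ᵥ a) = ip a (D *ᵥ w) := by
    rw [ip_mulVec, hD, ip_comm]
  have h2 : 4 * ip a (D *ᵥ w) =
      ip (a + w) (D *ᵥ (a + w)) - ip (a - w) (D *ᵥ (a - w)) := by
    rw [Matrix.mulVec_add, Matrix.mulVec_sub, ip_add_left, ip_add_right, ip_add_right,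
      ip_sub_left, ip_sub_right, ip_sub_right, h1]
    ring
  have h3 := abs_le.1 (h (a + w))
  have h4 := abs_le.1 (h (a - w))
  have h5 := NK_add_sub b ε a w
  rw [abs_le]
  constructor <;> linarith [h3.1, h3.2, h4.1, h4.2]

/-- the symbol `√(f² + ε²)` -/
def qq (b : Tor d M → ℝ) (ε : ℝ) (θ : Tor d M) : ℝ := Real.sqrt ((1 - bh b θ) ^ 2 + ε ^ 2)

theorem qq_pos (b : Tor d M → ℝ) {ε : ℝ} (hε : 0 < ε) (θ : Tor d M) : 0 < qq b ε θ := by
  unfold qq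
  positivity

theorem qq_sq (b : Tor d M → ℝ) (ε : ℝ) (θ : Tor d M) :
    qq b ε θ ^ 2 = (1 - bh b θ) ^ 2 + ε ^ 2 := by
  unfold qq
  exact Real.sq_sqrt (by positivity)

theorem le_qq (b : Tor d M → ℝ) {ε : ℝ} (hε : 0 < ε) (θ : Tor d M) : ε ≤ qq b ε θ := by
  unfold qq
  refine Real.le_sqrt_of_sq_le ?_
  have := sq_nonneg (1 - bh b θ)
  linarith

theorem qq_neg (b : Tor d M → ℝ) (ε : ℝ) (θ : Tor d M) : qq b ε (-θ) = qq b ε θ := by
  unfold qq
  rw [bh_neg]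

theorem NK_eq (b : Tor d M → ℝ) (ε : ℝ) (w : Tor d M → ℝ) : NK b ε w = ∑ θ, qq b ε θ * ft w θ :=
  rfl

theorem kk_eq (b : Tor d M → ℝ) (ε : ℝ) (θ : Tor d M) : kk b ε θ = 1 / qq b ε θ := rfl

/-- The energy estimate. -/
theorem energy_bound (hF : FourStmt) (b : Tor d M → ℝ) (hb : ∀ y, b (-y) = b y) {ε : ℝ}
    (hε : 0 < ε) (B : Matrix (Tor d M) (Tor d M) ℝ) (hB : Bᵀ = B)
    (h : ∀ w, |ip w ((B - cvM b) *ᵥ w)| ≤ 1 / 4 * NK b ε w) (w r : Tor d M → ℝ)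
    (hw : w - B *ᵥ w = r) : NK b ε w ≤ 2 * ε * sqn w + 1 / ε * sqn r := by
  obtain ⟨f1, f2, f3, f4, f5, f6, -⟩ := hF d M
  let f : Tor d M → ℝ := fun θ => 1 - bh b θ
  let g : Tor d M → ℝ := fun θ => f θ / qq b ε θ
  have hfn : ∀ θ, f (-θ) = f θ := fun θ => by
    change 1 - bh b (-θ) = 1 - bh b θ
    rw [bh_neg]
  have hgn : ∀ θ, g (-θ) = g θ := fun θ => by
    change f (-θ) / qq b ε (-θ) = f θ / qq b ε θ
    rw [hfn, qq_neg]
  have hF1 : 1 - cvM b = mulM f := by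
    rw [f6 b hb, ← f2, mulM_sub]
  set a : Tor d M → ℝ := mulM g *ᵥ w with ha
  have hq : ∀ θ, 0 < qq b ε θ := qq_pos b hε
  have hg2 : ∀ θ, g θ ^ 2 ≤ 1 := fun θ => by
    change (f θ / qq b ε θ) ^ 2 ≤ 1
    rw [div_pow, div_le_one (pow_pos (hq θ) 2), qq_sq]
    change f θ ^ 2 ≤ f θ ^ 2 + ε ^ 2
    have := sq_nonneg ε
    linarith
  have hfta : ∀ θ, ft a θ ≤ ft w θ := fun θ => by
    rw [ha, f5 g w θ hgn]
    have := mul_le_mul_of_nonneg_right (hg2 θ) (ft_nonneg w θ)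
    linarith
  -- the sizes of `a`
  have hNa : NK b ε a ≤ NK b ε w :=
    Finset.sum_le_sum fun θ _ => mul_le_mul_of_nonneg_left (hfta θ) (hq θ).le
  have hsa : sqn a ≤ sqn w := by
    rw [← f1, ← f1]
    exact Finset.sum_le_sum fun θ _ => hfta θ
  -- testing
  have h1 : ip a (mulM f *ᵥ w) = ∑ θ, g θ * f θ * ft w θ := by
    have e1 : ip a (mulM f *ᵥ w) = ip w ((mulM g * mulM f) *ᵥ w) := by
      rw [← Matrix.mulVec_mulVec, ip_mulVec (mulM g), mulM_symm, ha]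
    rw [e1, f3 g f hgn hfn, f4]
  have h2 : NK b ε w - ε * sqn w ≤ ip a (mulM f *ᵥ w) := by
    rw [h1, NK_eq, ← f1 w, Finset.mul_sum, ← Finset.sum_sub_distrib]
    refine Finset.sum_le_sum fun θ _ => ?_
    rw [← sub_mul]
    refine mul_le_mul_of_nonneg_right ?_ (ft_nonneg w θ)
    change qq b ε θ - ε ≤ f θ / qq b ε θ * f θ
    have e1 : f θ / qq b ε θ * f θ = f θ ^ 2 / qq b ε θ := by ring
    rw [e1, le_div_iff₀ (hq θ)]
    have e2 := qq_sq b ε θ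
    have e3 := le_qq b hε θ
    change qq b ε θ ^ 2 = f θ ^ 2 + ε ^ 2 at e2
    nlinarith
  have hDt : (B - cvM b)ᵀ = B - cvM b := by
    rw [Matrix.transpose_sub, hB]
    congr 1
    ext x y
    rw [Matrix.transpose_apply]
    unfold cvM
    rw [Matrix.of_apply, Matrix.of_apply, ← hb, neg_sub]
  have h3 := polar (B - cvM b) hDt b ε h a w
  have h4 : ip a r = ip a (mulM f *ᵥ w) - ip a ((B - cvM b) *ᵥ w) := by
    rw [← hw, ← hF1, Matrix.sub_mulVec, Matrix.sub_mulVec, Matrix.one_mulVec, ip_sub_right,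
      ip_sub_right, ip_sub_right]
    ring
  have h5 : ip a r ≤ ε / 2 * sqn w + 1 / (2 * ε) * sqn r := by
    have e1 := sqn_nonneg (ε • a - r)
    rw [sqn_sub, sqn_smul, ip_smul_left] at e1
    have e2 : 0 ≤ (1 / (2 * ε)) * (ε ^ 2 * sqn a - 2 * (ε * ip a r) + sqn r) :=
      mul_nonneg (by positivity) e1
    have e3 : (1 / (2 * ε)) * (ε ^ 2 * sqn a - 2 * (ε * ip a r) + sqn r) =
        ε / 2 * sqn a - ip a r + 1 / (2 * ε) * sqn r := by
      field_simp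
    have e4 : ε / 2 * sqn a ≤ ε / 2 * sqn w := mul_le_mul_of_nonneg_left hsa (by positivity)
    linarith
  have h6 := (abs_le.1 h3).2
  have h7 : 3 / 4 * NK b ε w ≤ 3 / 2 * ε * sqn w + 1 / (2 * ε) * sqn r := by
    linarith
  have h8 : 1 / (2 * ε) * sqn r = 1 / 2 * (1 / ε * sqn r) := by
    field_simp
  have h9 : 0 ≤ 1 / ε * sqn r := mul_nonneg (by positivity) (sqn_nonneg r)
  rw [h8] at h7
  linarith

/-- Cauchy-Schwarz for the pair of dual forms. -/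
theorem ip_le_kk (hF : FourStmt) (b : Tor d M → ℝ) {ε : ℝ} (hε : 0 < ε) (v w : Tor d M → ℝ) :
    ip v w ^ 2 ≤ (∑ θ, kk b ε θ * ft v θ) * NK b ε w := by
  obtain ⟨f1, f2, f3, f4, f5, f6, -⟩ := hF d M
  let κ : Tor d M → ℝ := fun θ => Real.sqrt (kk b ε θ)
  let κ' : Tor d M → ℝ := fun θ => Real.sqrt (qq b ε θ)
  have hq : ∀ θ, 0 < qq b ε θ := qq_pos b hε
  have hk : ∀ θ, 0 < kk b ε θ := kk_pos b hε
  have hκn : ∀ θ, κ (-θ) = κ θ := fun θ => by
    change Real.sqrt (kk b ε (-θ)) = Real.sqrt (kk b ε θ)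
    rw [kk_eq, kk_eq, qq_neg]
  have hκn' : ∀ θ, κ' (-θ) = κ' θ := fun θ => by
    change Real.sqrt (qq b ε (-θ)) = Real.sqrt (qq b ε θ)
    rw [qq_neg]
  have hprod : ∀ θ, κ θ * κ' θ = 1 := fun θ => by
    change Real.sqrt (kk b ε θ) * Real.sqrt (qq b ε θ) = 1
    rw [← Real.sqrt_mul (hk θ).le, kk_eq, one_div_mul_cancel (hq θ).ne', Real.sqrt_one]
  have h1 : ip v w = ip (mulM κ *ᵥ v) (mulM κ' *ᵥ w) := by
    have e1 : mulM κ * mulM κ' = (1 : Matrix (Tor d M) (Tor d M) ℝ) := by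
      rw [f3 κ κ' hκn hκn', ← f2]
      congr 1
      funext θ
      exact hprod θ
    calc ip v w = ip v ((mulM κ * mulM κ') *ᵥ w) := by rw [e1, Matrix.one_mulVec]
      _ = ip (mulM κ *ᵥ v) (mulM κ' *ᵥ w) := by
        rw [← Matrix.mulVec_mulVec, ip_mulVec, mulM_symm]
  have h2 : sqn (mulM κ *ᵥ v) = ∑ θ, kk b ε θ * ft v θ := by
    rw [← f1]
    refine Finset.sum_congr rfl fun θ _ => ?_
    rw [f5 κ v θ hκn]
    congr 1
    exact Real.sq_sqrt (hk θ).le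
  have h3 : sqn (mulM κ' *ᵥ w) = NK b ε w := by
    rw [← f1, NK_eq]
    refine Finset.sum_congr rfl fun θ _ => ?_
    rw [f5 κ' w θ hκn']
    congr 1
    exact Real.sq_sqrt (hq θ).le
  rw [h1, ← h2, ← h3]
  exact ip_sq_le _ _

open Classical in
/-- restriction to a box -/
def bx (x0 : Tor d M) (ρ : ℕ) (w : Tor d M → ℝ) : Tor d M → ℝ := fun x =>
  if ∀ i, ((x i - x0 i).valMinAbs).natAbs ≤ ρ then w x else 0

/-- The mass of `w` in a box. -/
theorem box_bound (hF : FourStmt) {l : ℕ} (b : Tor d M → ℝ) {ε Cb : ℝ} (hε : 0 < ε)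
    (hK : KBox d M l Cb b ε) (w : Tor d M → ℝ) (x0 : Tor d M) (ρ : ℕ)
    (hpos : 0 ≤ Cb * (1 + (2 * ρ + 1) / l * Real.log (1 / ε))) :
    sqn (bx x0 ρ w) ≤ Cb * (1 + (2 * ρ + 1) / l * Real.log (1 / ε)) * NK b ε w := by
  have h1 : ip (bx x0 ρ w) w = sqn (bx x0 ρ w) := by
    unfold ip sqn
    refine Finset.sum_congr rfl fun x _ => ?_
    unfold bx
    split_ifs <;> ring
  have h2 := ip_le_kk hF b hε (bx x0 ρ w) w
  have h3 := hK (bx x0 ρ w) x0 ρ (fun x hx => by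
    by_contra hc
    apply hx
    unfold bx
    rw [if_neg hc])
  rw [h1] at h2
  have h0 := NK_nonneg b ε w
  by_cases hz : sqn (bx x0 ρ w) = 0
  · rw [hz]
    exact mul_nonneg hpos h0
  · have hz' : 0 < sqn (bx x0 ρ w) := lt_of_le_of_ne (sqn_nonneg _) (Ne.symm hz)
    have h4 : sqn (bx x0 ρ w) ^ 2 ≤
        Cb * (1 + (2 * ρ + 1) / l * Real.log (1 / ε)) * sqn (bx x0 ρ w) * NK b ε w :=
      h2.trans (mul_le_mul_of_nonneg_right h3 h0)
    have h5 : sqn (bx x0 ρ w) * sqn (bx x0 ρ w) ≤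
        sqn (bx x0 ρ w) * (Cb * (1 + (2 * ρ + 1) / l * Real.log (1 / ε)) * NK b ε w) := by
      nlinarith
    exact le_of_mul_le_mul_left h5 hz'

end Pool.Agent.IR.H34
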