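import Pool.Agent.Helper41_IR.Stmts

/-!
# IR: Combes-Thomas bounds
-/

set_option autoImplicit false

open scoped BigOperators

noncomputable section

namespace Pool.Agent.IR.H34

open Matrix Pool.Agent.Anderson Pool.Agent.Loc Pool.Agent.BED

/-! ### general weights -/

section gen

variable {n : Type} [Fintype n]

theorem cosh_sub_one_le {t : ℝ} (ht : |t| ≤ 1 / 3) : Real.cosh t - 1 ≤ 53 / 100 * t ^ 2 := by
  have h1 := Real.cosh_le_exp_half_sq t
  have h2 : t ^ 2 ≤ 1 / 9 := by
    have := pow_le_pow_left₀ (abs_nonneg t) ht 2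
    rw [sq_abs] at this
    linarith
  have h3 : |t ^ 2 / 2| ≤ 1 := by
    rw [abs_of_nonneg (by positivity)]
    linarith
  have h4 := (abs_le.1 (Real.abs_exp_sub_one_sub_id_le h3)).2
  nlinarith [sq_nonneg t]

theorem cosh_sub_one_nonneg (t : ℝ) : 0 ≤ Real.cosh t - 1 := by
  have := Real.one_le_cosh t
  linarith

theorem ct_lower (A K : Matrix n n ℝ) (hA : ∀ x y, A x y = A y x) (φ : n → ℝ) (κ : ℝ)
    (hK : ∀ x y, |(Real.cosh (φ x - φ y) - 1) * A x y| ≤ K x y)
    (hKs : ∀ x y, K x y = K y x) (hrow : ∀ x, ∑ y, K x y ≤ κ) (u : n → ℝ) :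
    ip u (A *ᵥ u) - κ * sqn u ≤ ∑ x, ∑ y, Real.exp (φ x - φ y) * A x y * u x * u y := by
  have h1 : ∑ x, ∑ y, Real.exp (φ x - φ y) * A x y * u x * u y =
      ∑ x, ∑ y, Real.cosh (φ x - φ y) * A x y * u x * u y := by
    have h2 : ∑ x, ∑ y, Real.exp (φ x - φ y) * A x y * u x * u y =
        ∑ x, ∑ y, Real.exp (-(φ x - φ y)) * A x y * u x * u y := by
      rw [Finset.sum_comm]
      refine Finset.sum_congr rfl fun x _ => Finset.sum_congr rfl fun y _ => ?_
      rw [hA y x, neg_sub]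
      ring
    have h3 : ∑ x, ∑ y, Real.cosh (φ x - φ y) * A x y * u x * u y =
        (∑ x, ∑ y, Real.exp (φ x - φ y) * A x y * u x * u y +
          ∑ x, ∑ y, Real.exp (-(φ x - φ y)) * A x y * u x * u y) / 2 := by
      rw [← Finset.sum_add_distrib, Finset.sum_div]
      refine Finset.sum_congr rfl fun x _ => ?_
      rw [← Finset.sum_add_distrib, Finset.sum_div]
      refine Finset.sum_congr rfl fun y _ => ?_
      rw [Real.cosh_eq]
      ring
    rw [h3, ← h2]
    ring
  have h4 : ip u (A *ᵥ u) = ∑ x, ∑ y, A x y * u x * u y := by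
    unfold ip
    refine Finset.sum_congr rfl fun x _ => ?_
    simp only [Matrix.mulVec, dotProduct, Finset.mul_sum]
    exact Finset.sum_congr rfl fun y _ => by ring
  have h5 : -(κ * sqn u) ≤ ∑ x, ∑ y, (Real.cosh (φ x - φ y) - 1) * A x y * u x * u y := by
    have h6 : -(∑ x, ∑ y, K x y * (u x ^ 2 + u y ^ 2) / 2) ≤
        ∑ x, ∑ y, (Real.cosh (φ x - φ y) - 1) * A x y * u x * u y := by
      rw [← Finset.sum_neg_distrib]
      refine Finset.sum_le_sum fun x _ => ?_
      rw [← Finset.sum_neg_distrib]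
      refine Finset.sum_le_sum fun y _ => ?_
      have h7 := hK x y
      have h8 : |(Real.cosh (φ x - φ y) - 1) * A x y * u x * u y| ≤
          K x y * ((u x ^ 2 + u y ^ 2) / 2) := by
        rw [mul_assoc, abs_mul]
        have h9 : |u x * u y| ≤ (u x ^ 2 + u y ^ 2) / 2 := by
          rw [abs_mul]
          have := sq_nonneg (|u x| - |u y|)
          have e1 := sq_abs (u x)
          have e2 := sq_abs (u y)
          nlinarith
        exact mul_le_mul h7 h9 (abs_nonneg _) ((abs_nonneg _).trans h7)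
      have := (abs_le.1 h8).1
      linarith
    have h7 : ∑ x, ∑ y, K x y * (u x ^ 2 + u y ^ 2) / 2 = ∑ x, u x ^ 2 * ∑ y, K x y := by
      have e1 : ∑ x, ∑ y, K x y * (u x ^ 2 + u y ^ 2) / 2 =
          (∑ x, ∑ y, K x y * u x ^ 2 + ∑ x, ∑ y, K x y * u y ^ 2) / 2 := by
        rw [← Finset.sum_add_distrib, Finset.sum_div]
        refine Finset.sum_congr rfl fun x _ => ?_
        rw [← Finset.sum_add_distrib, Finset.sum_div]
        exact Finset.sum_congr rfl fun y _ => by ring
      have e2 : ∑ x, ∑ y, K x y * u y ^ 2 = ∑ x, ∑ y, K x y * u x ^ 2 := by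
        rw [Finset.sum_comm]
        exact Finset.sum_congr rfl fun x _ => Finset.sum_congr rfl fun y _ => by rw [hKs]
      rw [e1, e2]
      have e3 : ∑ x, ∑ y, K x y * u x ^ 2 = ∑ x, u x ^ 2 * ∑ y, K x y := by
        refine Finset.sum_congr rfl fun x _ => ?_
        rw [Finset.mul_sum]
        exact Finset.sum_congr rfl fun y _ => by ring
      rw [e3]
      ring
    have h8 : ∑ x, u x ^ 2 * ∑ y, K x y ≤ κ * sqn u := by
      unfold sqn
      rw [Finset.mul_sum]
      refine Finset.sum_le_sum fun x _ => ?_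
      rw [mul_comm]
      exact mul_le_mul_of_nonneg_right (hrow x) (sq_nonneg _)
    linarith
  have h9 : ∑ x, ∑ y, Real.cosh (φ x - φ y) * A x y * u x * u y =
      ∑ x, ∑ y, A x y * u x * u y +
        ∑ x, ∑ y, (Real.cosh (φ x - φ y) - 1) * A x y * u x * u y := by
    rw [← Finset.sum_add_distrib]
    refine Finset.sum_congr rfl fun x _ => ?_
    rw [← Finset.sum_add_distrib]
    exact Finset.sum_congr rfl fun y _ => by ring
  rw [h1, h9, h4]
  linarith

/-- weighted resolvent bound -/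
theorem ct_norm (A K : Matrix n n ℝ) (hA : ∀ x y, A x y = A y x) (φ : n → ℝ) (κ m m' : ℝ)
    (hK : ∀ x y, |(Real.cosh (φ x - φ y) - 1) * A x y| ≤ K x y)
    (hKs : ∀ x y, K x y = K y x) (hrow : ∀ x, ∑ y, K x y ≤ κ)
    (hm : ∀ u, m * sqn u ≤ ip u (A *ᵥ u)) (hm' : 0 < m') (hmm : m' ≤ m - κ)
    (g f : n → ℝ) (hg : A *ᵥ g = f) :
    m' ^ 2 * sqn (fun x => Real.exp (φ x) * g x) ≤ sqn (fun x => Real.exp (φ x) * f x) := by
  set u : n → ℝ := fun x => Real.exp (φ x) * g x with hu
  set h : n → ℝ := fun x => Real.exp (φ x) * f x with hh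
  have h1 := ct_lower A K hA φ κ hK hKs hrow u
  have h2 : ∑ x, ∑ y, Real.exp (φ x - φ y) * A x y * u x * u y = ip u h := by
    unfold ip
    refine Finset.sum_congr rfl fun x _ => ?_
    rw [hh]
    simp only
    rw [← hg]
    simp only [Matrix.mulVec, dotProduct, Finset.mul_sum]
    refine Finset.sum_congr rfl fun y _ => ?_
    rw [hu]
    simp only
    have : Real.exp (φ x - φ y) * Real.exp (φ y) = Real.exp (φ x) := by
      rw [← Real.exp_add]
      congr 1
      ring
    calc Real.exp (φ x - φ y) * A x y * (Real.exp (φ x) * g x) * (Real.exp (φ y) * g y)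
        = (Real.exp (φ x - φ y) * Real.exp (φ y)) * (A x y * (Real.exp (φ x) * g x) * g y) := by ring
      _ = _ := by rw [this]; ring
  rw [h2] at h1
  have h3 := hm u
  have h4 : m' * sqn u ≤ ip u h := by
    have := mul_le_mul_of_nonneg_right hmm (sqn_nonneg u)
    linarith
  have h5 := ip_sq_le u h
  have h6 : (m' * sqn u) ^ 2 ≤ sqn u * sqn h := by
    refine le_trans ?_ h5
    exact pow_le_pow_left₀ (mul_nonneg hm'.le (sqn_nonneg u)) h4 2
  rcases (sqn_nonneg u).eq_or_lt with h7 | h7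
  · rw [← h7, mul_zero]
    exact sqn_nonneg h
  · have h8 : sqn u * (m' ^ 2 * sqn u) ≤ sqn u * sqn h := by
      calc sqn u * (m' ^ 2 * sqn u) = (m' * sqn u) ^ 2 := by ring
        _ ≤ _ := h6
    exact le_of_mul_le_mul_left h8 h7

end gen

/-! ### the operator `AP` -/

section AP

variable {d M : ℕ} [NeZero M]

theorem adj_row_sum (x : Tor d M) : ∑ y, adj d M x y = 2 * d := by
  unfold adj
  simp only [Matrix.of_apply]
  rw [Finset.sum_comm]
  have : ∀ i : Fin d, ∑ y : Tor d M, ((if y = x + ev i then (1 : ℝ) else 0) +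
      (if y = x - ev i then (1 : ℝ) else 0)) = 2 := by
    intro i
    rw [Finset.sum_add_distrib, Finset.sum_ite_eq', Finset.sum_ite_eq']
    simp
    norm_num
  simp only [this]
  simp
  ring

theorem adj_support {x y : Tor d M} (h : adj d M x y ≠ 0) : nd (x - y) ≤ 1 := by
  unfold adj at h
  rw [Matrix.of_apply] at h
  obtain ⟨i, -, hi⟩ := Finset.exists_ne_zero_of_sum_ne_zero h
  by_cases h1 : y = x + ev i
  · rw [h1, nd_sub_comm, add_sub_cancel_left]
    exact nd_ev_le i
  · by_cases h2 : y = x - ev i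
    · rw [h2, sub_sub_cancel]
      exact nd_ev_le i
    · rw [if_neg h1, if_neg h2, add_zero] at hi
      exact absurd rfl hi

theorem QQ_nonneg (l : ℕ) (x y : Tor d M) : 0 ≤ ((QM d M l)ᵀ * QM d M l) x y := by
  rw [Matrix.mul_apply]
  exact Finset.sum_nonneg fun z _ => mul_nonneg (QM_nonneg l z x) (QM_nonneg l z y)

theorem QQ_symm (l : ℕ) (x y : Tor d M) :
    ((QM d M l)ᵀ * QM d M l) x y = ((QM d M l)ᵀ * QM d M l) y x := by
  rw [Matrix.mul_apply, Matrix.mul_apply]
  exact Finset.sum_congr rfl fun z _ => by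
    rw [Matrix.transpose_apply, Matrix.transpose_apply, mul_comm]

theorem QQ_row_sum {l : ℕ} (hl : 1 ≤ l) (x : Tor d M) :
    ∑ y, ((QM d M l)ᵀ * QM d M l) x y = 1 := by
  have h1 : (((QM d M l)ᵀ * QM d M l) *ᵥ (1 : Tor d M → ℝ)) x = 1 := by
    rw [← Matrix.mulVec_mulVec, QM_one hl, QMt_one hl]
    rfl
  simpa [Matrix.mulVec, dotProduct] using h1

theorem AP_symm (l : ℕ) (E : ℝ) (V : Tor d M → ℝ) (x y : Tor d M) :
    AP l E V x y = AP l E V y x := by
  unfold AP AM
  rw [Matrix.add_apply, Matrix.add_apply, Matrix.smul_apply, Matrix.smul_apply, QQ_symm,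
    Matrix.sub_apply, Matrix.sub_apply, adj_symm]
  congr 2
  by_cases h : x = y
  · rw [h]
  · rw [Matrix.diagonal_apply_ne _ h, Matrix.diagonal_apply_ne _ (Ne.symm h)]

theorem abs_AP_le (l : ℕ) (E : ℝ) (V : Tor d M → ℝ) {x y : Tor d M} (h : x ≠ y) :
    |AP l E V x y| ≤ adj d M x y + sL d l * ((QM d M l)ᵀ * QM d M l) x y := by
  unfold AP AM
  rw [Matrix.add_apply, Matrix.smul_apply, Matrix.sub_apply, Matrix.diagonal_apply_ne _ h,
    smul_eq_mul, zero_sub]
  have h1 : 0 ≤ adj d M x y := adj_nonneg x y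
  have h2 : 0 ≤ sL d l * ((QM d M l)ᵀ * QM d M l) x y := by
    refine mul_nonneg ?_ (QQ_nonneg l x y)
    unfold sL
    positivity
  rw [abs_le]
  constructor <;> linarith

/-- the weight -/
def wt (l : ℕ) (y x : Tor d M) : ℝ := (nd (x - y) : ℝ) / (3 * d * l)

theorem wt_nonneg (l : ℕ) (y x : Tor d M) : 0 ≤ wt l y x := by
  unfold wt
  positivity

theorem wt_diff (l : ℕ) (y x x' : Tor d M) :
    |wt l y x - wt l y x'| ≤ (nd (x - x') : ℝ) / (3 * d * l) := by
  have h1 : (nd (x - y) : ℝ) ≤ nd (x - x') + nd (x' - y) := by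
    have := nd_add_le (x - x') (x' - y)
    rw [sub_add_sub_cancel] at this
    exact_mod_cast this
  have h2 : (nd (x' - y) : ℝ) ≤ nd (x - x') + nd (x - y) := by
    have := nd_add_le (x' - x) (x - y)
    rw [sub_add_sub_cancel, nd_sub_comm x' x] at this
    exact_mod_cast this
  unfold wt
  rw [← sub_div, abs_div, abs_of_nonneg (by positivity : (0 : ℝ) ≤ 3 * d * l)]
  refine div_le_div_of_nonneg_right ?_ (by positivity)
  rw [abs_le]
  constructor <;> linarith

theorem ct_AP (hGap : GapStmt) {l : ℕ} {z μ E : ℝ} {V : Tor d M → ℝ} (hP : Par d M l z μ E)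
    (hF : FlatD (1 / 50) z μ V) (y : Tor d M) (g f : Tor d M → ℝ) (hg : AP l E V *ᵥ g = f) :
    sqn (fun x => Real.exp (wt l y x) * g x) ≤
      (2 * d * (l : ℝ) ^ 2) ^ 2 * sqn (fun x => Real.exp (wt l y x) * f x) := by
  obtain ⟨-, -, hg3, -⟩ := hGap d M l z μ E V hP hF
  have hd : (1 : ℝ) ≤ d := by exact_mod_cast hP.hd
  have hl : (1 : ℝ) ≤ l := by exact_mod_cast hP.hl
  have hdl : 0 < (d : ℝ) * (l : ℝ) ^ 2 := by positivity
  set c1 : ℝ := 53 / 100 * (1 / (3 * d * l)) ^ 2 with hc1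
  set c2 : ℝ := 53 / 100 * (1 / 3) ^ 2 with hc2
  let K : Matrix (Tor d M) (Tor d M) ℝ := Matrix.of fun a b =>
    c1 * adj d M a b + c2 * (sL d l * ((QM d M l)ᵀ * QM d M l) a b)
  have hsL : 0 ≤ sL d l := by unfold sL; positivity
  have hK : ∀ a b, |(Real.cosh (wt l y a - wt l y b) - 1) * AP l E V a b| ≤ K a b := by
    intro a b
    show _ ≤ c1 * adj d M a b + c2 * (sL d l * ((QM d M l)ᵀ * QM d M l) a b)
    have n1 : 0 ≤ adj d M a b := adj_nonneg a b
    have n2 : 0 ≤ sL d l * ((QM d M l)ᵀ * QM d M l) a b := mul_nonneg hsL (QQ_nonneg l a b)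
    by_cases hab : a = b
    · rw [hab, sub_self, Real.cosh_zero, sub_self, zero_mul, abs_zero]
      have m1 : 0 ≤ adj d M b b := adj_nonneg b b
      have m2 : 0 ≤ sL d l * ((QM d M l)ᵀ * QM d M l) b b := mul_nonneg hsL (QQ_nonneg l b b)
      positivity
    · rw [abs_mul, abs_of_nonneg (cosh_sub_one_nonneg _)]
      have h1 := abs_AP_le l E V hab
      have hwd := wt_diff l y a b
      have h2 : (Real.cosh (wt l y a - wt l y b) - 1) * adj d M a b ≤ c1 * adj d M a b := by
        by_cases h3 : adj d M a b = 0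
        · rw [h3, mul_zero, mul_zero]
        · have h4 := adj_support h3
          have h5 : |wt l y a - wt l y b| ≤ 1 / (3 * d * l) := by
            refine hwd.trans (div_le_div_of_nonneg_right ?_ (by positivity))
            exact_mod_cast h4
          have h6 : (1 : ℝ) / (3 * d * l) ≤ 1 / 3 := by
            apply one_div_le_one_div_of_le (by norm_num)
            nlinarith
          have h7 := cosh_sub_one_le (h5.trans h6)
          refine mul_le_mul_of_nonneg_right (h7.trans ?_) n1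
          rw [hc1]
          have := pow_le_pow_left₀ (abs_nonneg _) h5 2
          rw [sq_abs] at this
          linarith
      have h3 : (Real.cosh (wt l y a - wt l y b) - 1) *
          (sL d l * ((QM d M l)ᵀ * QM d M l) a b) ≤
          c2 * (sL d l * ((QM d M l)ᵀ * QM d M l) a b) := by
        by_cases h4 : ((QM d M l)ᵀ * QM d M l) a b = 0
        · rw [h4, mul_zero, mul_zero, mul_zero]
        · have h5 := QQ_support h4
          have h6 : |wt l y a - wt l y b| ≤ 1 / 3 := by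
            refine hwd.trans ?_
            rw [div_le_div_iff₀ (by positivity) (by norm_num)]
            have : (nd (a - b) : ℝ) ≤ d * l := by exact_mod_cast h5
            linarith
          have h7 := cosh_sub_one_le h6
          refine mul_le_mul_of_nonneg_right (h7.trans ?_) n2
          rw [hc2]
          have := pow_le_pow_left₀ (abs_nonneg _) h6 2
          rw [sq_abs] at this
          linarith
      calc (Real.cosh (wt l y a - wt l y b) - 1) * |AP l E V a b| ≤
          (Real.cosh (wt l y a - wt l y b) - 1) * (adj d M a b +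
            sL d l * ((QM d M l)ᵀ * QM d M l) a b) :=
            mul_le_mul_of_nonneg_left h1 (cosh_sub_one_nonneg _)
        _ ≤ _ := by rw [mul_add]; linarith
  have hKs : ∀ a b, K a b = K b a := by
    intro a b
    show c1 * adj d M a b + c2 * (sL d l * ((QM d M l)ᵀ * QM d M l) a b) =
      c1 * adj d M b a + c2 * (sL d l * ((QM d M l)ᵀ * QM d M l) b a)
    rw [adj_symm, QQ_symm]
  have hrow : ∀ a, ∑ b, K a b ≤ c1 * (2 * d) + c2 * sL d l := by
    intro a
    show ∑ b, (c1 * adj d M a b + c2 * (sL d l * ((QM d M l)ᵀ * QM d M l) a b)) ≤ _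
    rw [Finset.sum_add_distrib, ← Finset.mul_sum, adj_row_sum, ← Finset.mul_sum, ← Finset.mul_sum,
      QQ_row_sum hP.hl, mul_one]
  have hmm : 1 / (2 * d * (l : ℝ) ^ 2) ≤ 1 / (d * (l : ℝ) ^ 2) - (c1 * (2 * d) + c2 * sL d l) := by
    have e1 : c1 * (2 * d) = 106 / 900 * (1 / (d * (l : ℝ) ^ 2)) := by
      rw [hc1]
      field_simp
      ring
    have e2 : c2 * sL d l = 106 / 900 * (1 / (d * (l : ℝ) ^ 2)) := by
      rw [hc2]
      unfold sL
      field_simp
      ring
    have e3 : 1 / (2 * d * (l : ℝ) ^ 2) = 1 / 2 * (1 / (d * (l : ℝ) ^ 2)) := by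
      field_simp
    rw [e1, e2, e3]
    have : 0 < 1 / (d * (l : ℝ) ^ 2) := by positivity
    linarith
  have hfin := ct_norm (AP l E V) K (AP_symm l E V) (wt l y) (c1 * (2 * d) + c2 * sL d l)
    (1 / (d * (l : ℝ) ^ 2)) (1 / (2 * d * (l : ℝ) ^ 2)) hK hKs hrow hg3 (by positivity) hmm g f hg
  have hpos : 0 < 2 * (d : ℝ) * (l : ℝ) ^ 2 := by positivity
  calc sqn (fun x => Real.exp (wt l y x) * g x) = (2 * d * (l : ℝ) ^ 2) ^ 2 *
      ((1 / (2 * d * (l : ℝ) ^ 2)) ^ 2 * sqn (fun x => Real.exp (wt l y x) * g x)) := by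
        field_simp
    _ ≤ _ := mul_le_mul_of_nonneg_left hfin (by positivity)

/-- the sum of squares of a row of `QM` -/
theorem row_sq {l : ℕ} (hl : 1 ≤ l) (hlM : l ≤ M) (y : Tor d M) :
    (l : ℝ) ^ d * sqn (fun x => QM d M l y x) ≤ 1 := by
  have h1 := QM_sup hl hlM (fun x => QM d M l y x) y
  have h2 : (QM d M l *ᵥ (fun x => QM d M l y x)) y = sqn (fun x => QM d M l y x) := by
    unfold sqn
    simp only [Matrix.mulVec, dotProduct]
    exact Finset.sum_congr rfl fun x _ => by ring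
  rw [h2] at h1
  rcases (sqn_nonneg (fun x => QM d M l y x)).eq_or_lt with h3 | h3
  · rw [← h3, mul_zero]
    exact zero_le_one
  · have h4 : sqn (fun x => QM d M l y x) * ((l : ℝ) ^ d * sqn (fun x => QM d M l y x)) ≤
        sqn (fun x => QM d M l y x) * 1 := by
      calc _ = (l : ℝ) ^ d * sqn (fun x => QM d M l y x) ^ 2 := by ring
        _ ≤ _ := by rw [mul_one]; exact h1
    exact le_of_mul_le_mul_left h4 h3

theorem exp_le_three {t : ℝ} (ht : t ≤ 2 / 3) : Real.exp t ≤ 3 := by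
  have h1 : Real.exp t ≤ Real.exp 1 := Real.exp_le_exp.mpr (by linarith)
  have h2 := Real.exp_one_lt_d9
  linarith

theorem wt_le {l : ℕ} (hd : 1 ≤ d) (hl : 1 ≤ l) {x y : Tor d M} (h : nd (x - y) ≤ d * l) :
    wt l y x ≤ 1 / 3 := by
  unfold wt
  have hd' : (1 : ℝ) ≤ d := by exact_mod_cast hd
  have hl' : (1 : ℝ) ≤ l := by exact_mod_cast hl
  rw [div_le_div_iff₀ (by positivity) (by norm_num)]
  have : (nd (x - y) : ℝ) ≤ d * l := by exact_mod_cast h
  linarith

/-- the weighted norm of a column of `GP QMᵀ` -/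
theorem ct_col (hGap : GapStmt) {l : ℕ} {z μ E : ℝ} {V : Tor d M → ℝ} (hP : Par d M l z μ E)
    (hF : FlatD (1 / 50) z μ V) (y : Tor d M) :
    (l : ℝ) ^ d * sqn (fun x => Real.exp (wt l y x) * (GP l E V * (QM d M l)ᵀ) x y) ≤
      3 * (2 * d * (l : ℝ) ^ 2) ^ 2 := by
  obtain ⟨-, hpd, -⟩ := hGap d M l z μ E V hP hF
  set g : Tor d M → ℝ := fun x => (GP l E V * (QM d M l)ᵀ) x y with hg
  set f : Tor d M → ℝ := fun x => QM d M l y x with hf
  have hdet : IsUnit (AP l E V).det := (Matrix.isUnit_iff_isUnit_det _).mp hpd.isUnit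
  have hgf : AP l E V *ᵥ g = f := by
    funext x
    have h1 : (AP l E V *ᵥ g) x = (AP l E V * (GP l E V * (QM d M l)ᵀ)) x y := by
      rw [Matrix.mul_apply]
      rfl
    rw [h1, ← Matrix.mul_assoc]
    unfold GP
    rw [Matrix.mul_nonsing_inv _ hdet, Matrix.one_mul, Matrix.transpose_apply]
  have h1 := ct_AP hGap hP hF y g f hgf
  have h2 : sqn (fun x => Real.exp (wt l y x) * f x) ≤ 3 * sqn f := by
    unfold sqn
    rw [Finset.mul_sum]
    refine Finset.sum_le_sum fun x _ => ?_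
    show (Real.exp (wt l y x) * f x) ^ 2 ≤ 3 * f x ^ 2
    by_cases h0 : f x = 0
    · rw [h0, mul_zero]
      simp
    · have h3 : nd (x - y) ≤ d * l := QM_support h0
      have h4 := wt_le hP.hd hP.hl h3
      rw [mul_pow]
      refine mul_le_mul_of_nonneg_right ?_ (sq_nonneg _)
      rw [← Real.exp_nat_mul]
      exact exp_le_three (by push_cast; linarith)
  have h5 := row_sq (d := d) (M := M) hP.hl hP.hlM.le y
  have hl0 : (0 : ℝ) < (l : ℝ) ^ d := by
    have : (1 : ℝ) ≤ l := by exact_mod_cast hP.hl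
    positivity
  calc (l : ℝ) ^ d * sqn (fun x => Real.exp (wt l y x) * g x) ≤
      (l : ℝ) ^ d * ((2 * d * (l : ℝ) ^ 2) ^ 2 * sqn (fun x => Real.exp (wt l y x) * f x)) :=
        mul_le_mul_of_nonneg_left h1 hl0.le
    _ ≤ (l : ℝ) ^ d * ((2 * d * (l : ℝ) ^ 2) ^ 2 * (3 * sqn f)) :=
        mul_le_mul_of_nonneg_left (mul_le_mul_of_nonneg_left h2 (by positivity)) hl0.le
    _ = 3 * (2 * d * (l : ℝ) ^ 2) ^ 2 * ((l : ℝ) ^ d * sqn f) := by ring
    _ ≤ 3 * (2 * d * (l : ℝ) ^ 2) ^ 2 * 1 := mul_le_mul_of_nonneg_left h5 (by positivity)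
    _ = _ := mul_one _

theorem le_sqn {n : Type} [Fintype n] (u : n → ℝ) (x : n) : u x ^ 2 ≤ sqn u :=
  Finset.single_le_sum (f := fun x => u x ^ 2) (fun _ _ => sq_nonneg _) (Finset.mem_univ x)

end AP

theorem ct (hGap : GapStmt) : CtStmt := by
  intro d hd
  refine ⟨4 * d + 12, by positivity, ?_⟩
  intro M l _ z μ E V hP hF
  have hd' : (1 : ℝ) ≤ d := by exact_mod_cast hd
  have hl' : (1 : ℝ) ≤ l := by exact_mod_cast hP.hl
  have hl0 : (1 : ℝ) ≤ (l : ℝ) ^ d := one_le_pow₀ hl'
  have hdl : 0 < (d : ℝ) * (l : ℝ) ^ 2 := by positivity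
  refine ⟨fun x y => ?_, fun x y => ?_⟩
  · have h1 := ct_col hGap hP hF y
    have h2 := le_sqn (fun x => Real.exp (wt l y x) * (GP l E V * (QM d M l)ᵀ) x y) x
    set g := (GP l E V * (QM d M l)ᵀ) x y
    set S := sqn (fun x => Real.exp (wt l y x) * (GP l E V * (QM d M l)ᵀ) x y)
    have hS : 0 ≤ S := sqn_nonneg _
    have h3 : S ≤ 3 * (2 * d * (l : ℝ) ^ 2) ^ 2 := by nlinarith
    have h4 : (Real.exp (wt l y x) * |g|) ^ 2 ≤ (4 * (d * (l : ℝ) ^ 2)) ^ 2 := by
      rw [mul_pow, sq_abs, ← mul_pow]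
      refine (h2.trans h3).trans ?_
      nlinarith [sq_nonneg ((d : ℝ) * (l : ℝ) ^ 2)]
    have h5 : Real.exp (wt l y x) * |g| ≤ 4 * (d * (l : ℝ) ^ 2) :=
      (abs_le_of_sq_le_sq' h4 (by positivity)).2
    have h6 : |g| = Real.exp (-(wt l y x)) * (Real.exp (wt l y x) * |g|) := by
      rw [← mul_assoc, ← Real.exp_add, neg_add_cancel, Real.exp_zero, one_mul]
    rw [h6]
    have h7 : (nd (x - y) : ℝ) / (3 * d * l) = wt l y x := rfl
    rw [h7]
    calc Real.exp (-(wt l y x)) * (Real.exp (wt l y x) * |g|) ≤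
        Real.exp (-(wt l y x)) * (4 * (d * (l : ℝ) ^ 2)) :=
          mul_le_mul_of_nonneg_left h5 (Real.exp_pos _).le
      _ = 4 * d * (l : ℝ) ^ 2 * Real.exp (-(wt l y x)) := by ring
      _ ≤ (4 * d + 12) * (l : ℝ) ^ 2 * Real.exp (-(wt l y x)) := by
          refine mul_le_mul_of_nonneg_right ?_ (Real.exp_pos _).le
          refine mul_le_mul_of_nonneg_right ?_ (by positivity)
          linarith
  · have h1 := ct_col hGap hP hF y
    set u : Tor d M → ℝ := fun x => Real.exp (wt l y x) * (GP l E V * (QM d M l)ᵀ) x y with hu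
    set w : Tor d M → ℝ := fun x' => Real.exp (-(wt l y x')) * QM d M l x x' with hw
    have h2 : BB l E V x y = sL d l * ip w u := by
      unfold BB
      rw [Matrix.smul_apply, smul_eq_mul, Matrix.mul_assoc, Matrix.mul_apply]
      congr 1
      unfold ip
      refine Finset.sum_congr rfl fun x' _ => ?_
      rw [hw, hu]
      simp only
      have : Real.exp (-(wt l y x')) * Real.exp (wt l y x') = 1 := by
        rw [← Real.exp_add, neg_add_cancel, Real.exp_zero]
      calc QM d M l x x' * (GP l E V * (QM d M l)ᵀ) x' y = (Real.exp (-(wt l y x')) *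
          Real.exp (wt l y x')) * (QM d M l x x' * (GP l E V * (QM d M l)ᵀ) x' y) := by
            rw [this, one_mul]
        _ = _ := by ring
    have h3 : (l : ℝ) ^ d * sqn w ≤ 3 * Real.exp (-(wt l y x)) ^ 2 := by
      have h4 : sqn w ≤ 3 * Real.exp (-(wt l y x)) ^ 2 * sqn (fun x' => QM d M l x x') := by
        unfold sqn
        rw [Finset.mul_sum]
        refine Finset.sum_le_sum fun x' _ => ?_
        show (Real.exp (-(wt l y x')) * QM d M l x x') ^ 2 ≤
          3 * Real.exp (-(wt l y x)) ^ 2 * QM d M l x x' ^ 2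
        by_cases h0 : QM d M l x x' = 0
        · rw [h0]
          simp
        · have h5 : nd (x' - x) ≤ d * l := QM_support h0
          have h6 := wt_diff l y x x'
          have h7 : (nd (x - x') : ℝ) / (3 * d * l) ≤ 1 / 3 := by
            rw [nd_sub_comm]
            exact wt_le (y := x) hd hP.hl h5
          have h8 := (abs_le.1 (h6.trans h7)).2
          rw [mul_pow]
          refine mul_le_mul_of_nonneg_right ?_ (sq_nonneg _)
          rw [← Real.exp_nat_mul, ← Real.exp_nat_mul]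
          have h9 : Real.exp ((2 : ℕ) * -(wt l y x')) =
              Real.exp ((2 : ℕ) * (wt l y x - wt l y x')) * Real.exp ((2 : ℕ) * -(wt l y x)) := by
            rw [← Real.exp_add]
            congr 1
            ring
          rw [h9]
          refine mul_le_mul_of_nonneg_right ?_ (Real.exp_pos _).le
          exact exp_le_three (by push_cast; linarith)
      have h5 := row_sq (d := d) (M := M) hP.hl hP.hlM.le x
      calc (l : ℝ) ^ d * sqn w ≤ (l : ℝ) ^ d * (3 * Real.exp (-(wt l y x)) ^ 2 *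
          sqn (fun x' => QM d M l x x')) := mul_le_mul_of_nonneg_left h4 (by positivity)
        _ = 3 * Real.exp (-(wt l y x)) ^ 2 * ((l : ℝ) ^ d * sqn (fun x' => QM d M l x x')) := by
            ring
        _ ≤ 3 * Real.exp (-(wt l y x)) ^ 2 * 1 :=
            mul_le_mul_of_nonneg_left h5 (by positivity)
        _ = _ := mul_one _
    have h6 : ((l : ℝ) ^ d * |ip w u|) ^ 2 ≤
        (6 * (d * (l : ℝ) ^ 2) * Real.exp (-(wt l y x))) ^ 2 := by
      calc ((l : ℝ) ^ d * |ip w u|) ^ 2 = ((l : ℝ) ^ d) ^ 2 * (ip w u) ^ 2 := by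
            rw [mul_pow, sq_abs]
        _ ≤ ((l : ℝ) ^ d) ^ 2 * (sqn w * sqn u) :=
            mul_le_mul_of_nonneg_left (ip_sq_le w u) (by positivity)
        _ = ((l : ℝ) ^ d * sqn w) * ((l : ℝ) ^ d * sqn u) := by ring
        _ ≤ (3 * Real.exp (-(wt l y x)) ^ 2) * (3 * (2 * d * (l : ℝ) ^ 2) ^ 2) :=
            mul_le_mul h3 h1 (mul_nonneg (by positivity) (sqn_nonneg _)) (by positivity)
        _ = _ := by ring
    have h7 : (l : ℝ) ^ d * |ip w u| ≤ 6 * (d * (l : ℝ) ^ 2) * Real.exp (-(wt l y x)) :=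
      (abs_le_of_sq_le_sq' h6 (by positivity)).2
    have h8 : (nd (x - y) : ℝ) / (3 * d * l) = wt l y x := rfl
    rw [h2, h8, abs_mul, abs_of_nonneg (by unfold sL; positivity : 0 ≤ sL d l)]
    calc (l : ℝ) ^ d * (sL d l * |ip w u|) = sL d l * ((l : ℝ) ^ d * |ip w u|) := by ring
      _ ≤ sL d l * (6 * (d * (l : ℝ) ^ 2) * Real.exp (-(wt l y x))) :=
          mul_le_mul_of_nonneg_left h7 (by unfold sL; positivity)
      _ = 12 * Real.exp (-(wt l y x)) := by
          unfold sL
          field_simp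
          ring
      _ ≤ (4 * d + 12) * Real.exp (-(wt l y x)) := by
          refine mul_le_mul_of_nonneg_right ?_ (Real.exp_pos _).le
          linarith

end Pool.Agent.IR.H34
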