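import Pool.Agent.Helper41_IR.Stmts

/-!
# IR: the Fourier transform of functions supported in a slab
-/

set_option autoImplicit false

open scoped BigOperators

noncomputable section

namespace Pool.Agent.IR.H34

open Matrix Pool.Agent.Anderson Pool.Agent.Loc Pool.Agent.BED

variable {d M : ℕ} [NeZero M]

/-- the standard character -/
abbrev ψ (M : ℕ) [NeZero M] : AddChar (ZMod M) ℂ := ZMod.stdAddChar

/-- the scalar product of a momentum and a point -/
def dt (θ x : Tor d M) : ZMod M := ∑ i, θ i * x i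

theorem psi_dt (θ x : Tor d M) : ψ M (dt θ x) = Complex.exp ((ph θ x : ℝ) * Complex.I) := by
  have h1 : dt θ x = ((∑ i, (θ i).valMinAbs * (x i).valMinAbs : ℤ) : ZMod M) := by
    unfold dt
    rw [Int.cast_sum]
    exact Finset.sum_congr rfl fun i _ => by
      rw [Int.cast_mul, ZMod.coe_valMinAbs, ZMod.coe_valMinAbs]
  rw [h1, ZMod.stdAddChar_coe]
  congr 1
  unfold ph
  push_cast
  ring

/-- the complex Fourier transform -/
def FF (w : Tor d M → ℝ) (θ : Tor d M) : ℂ := ∑ x, (w x : ℂ) * ψ M (dt θ x)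

theorem FF_re (w : Tor d M → ℝ) (θ : Tor d M) : (FF w θ).re = ∑ x, w x * Real.cos (ph θ x) := by
  unfold FF
  rw [Complex.re_sum]
  refine Finset.sum_congr rfl fun x _ => ?_
  rw [psi_dt, Complex.re_ofReal_mul, Complex.exp_ofReal_mul_I_re]

theorem FF_im (w : Tor d M → ℝ) (θ : Tor d M) : (FF w θ).im = ∑ x, w x * Real.sin (ph θ x) := by
  unfold FF
  rw [Complex.im_sum]
  refine Finset.sum_congr rfl fun x _ => ?_
  rw [psi_dt, Complex.im_ofReal_mul, Complex.exp_ofReal_mul_I_im]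

theorem ft_eq (w : Tor d M → ℝ) (θ : Tor d M) : ft w θ = ‖FF w θ‖ ^ 2 / (M : ℝ) ^ d := by
  unfold ft
  rw [← Complex.normSq_eq_norm_sq, Complex.normSq_apply, FF_re, FF_im]
  congr 1
  ring

/-- Parseval in one variable -/
theorem parseval (W : ZMod M → ℂ) :
    ∑ t : ZMod M, ‖∑ s, W s * ψ M (t * s)‖ ^ 2 = (M : ℝ) * ∑ s, ‖W s‖ ^ 2 := by
  have h1 : ((∑ t : ZMod M, ‖∑ s, W s * ψ M (t * s)‖ ^ 2 : ℝ) : ℂ) =
      ((M : ℝ) * ∑ s, ‖W s‖ ^ 2 : ℝ) := by
    push_cast
    have h2 : ∀ t : ZMod M, ((‖∑ s, W s * ψ M (t * s)‖ : ℝ) : ℂ) ^ 2 =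
        ∑ s, ∑ s', W s * (starRingEnd ℂ) (W s') * ψ M (t * (s - s')) := by
      intro t
      rw [← Complex.mul_conj', map_sum, Finset.sum_mul_sum]
      refine Finset.sum_congr rfl fun s _ => Finset.sum_congr rfl fun s' _ => ?_
      have e1 : (starRingEnd ℂ) (W s' * ψ M (t * s')) =
          (starRingEnd ℂ) (W s') * ψ M (-(t * s')) := by
        rw [AddChar.map_neg_eq_conj]
        exact map_mul (starRingEnd ℂ) _ _
      rw [e1, mul_sub, sub_eq_add_neg, AddChar.map_add_eq_mul]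
      ring
    simp only [h2]
    rw [Finset.sum_comm]
    rw [Finset.mul_sum]
    refine Finset.sum_congr rfl fun s _ => ?_
    rw [Finset.sum_comm]
    rw [Finset.sum_eq_single s]
    · rw [sub_self]
      simp only [mul_zero, AddChar.map_zero_eq_one, mul_one, Finset.sum_const, Finset.card_univ,
        ZMod.card, nsmul_eq_mul, Complex.mul_conj']
    · intro s' _ hs'
      rw [← Finset.mul_sum, AddChar.sum_mulShift _ (ZMod.isPrimitive_stdAddChar M),
        if_neg (sub_ne_zero.mpr (Ne.symm hs')), Nat.cast_zero, mul_zero]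
    · intro h
      exact absurd (Finset.mem_univ _) h
  exact_mod_cast h1

/-- the number of points close to `x0` -/
theorem card_slab (x0 : ZMod M) (ρ : ℕ) (T : Finset (ZMod M))
    (hT : ∀ s ∈ T, ((s - x0).valMinAbs).natAbs ≤ ρ) : T.card ≤ 2 * ρ + 1 := by
  have h1 : T.card ≤ (Finset.Icc (-(ρ : ℤ)) ρ).card := by
    refine Finset.card_le_card_of_injOn (fun s => (s - x0).valMinAbs) ?_ ?_
    · intro s hs
      have := hT s hs
      simp only [Finset.coe_Icc, Set.mem_Icc]
      omega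
    · intro s _ s' _ h
      have h2 : s - x0 = s' - x0 := ZMod.injective_valMinAbs h
      exact sub_left_injective h2
  rw [Int.card_Icc] at h1
  omega

theorem slice : SliceStmt := by
  intro d M _ w i x0 ρ hw θ
  classical
  have hM : (0 : ℝ) < M := by exact_mod_cast Nat.pos_of_ne_zero (NeZero.ne M)
  -- the partial transform
  let W : ZMod M → ℂ := fun s => ∑ x : Tor d M, if x i = s then
    (w x : ℂ) * ψ M (∑ j ∈ Finset.univ.erase i, θ j * x j) else 0
  have hF : ∀ t : ZMod M, FF w (Function.update θ i t) = ∑ s, W s * ψ M (t * s) := by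
    intro t
    have h1 : ∀ s, W s * ψ M (t * s) = ∑ x : Tor d M, if x i = s then
        (w x : ℂ) * ψ M (∑ j ∈ Finset.univ.erase i, θ j * x j) * ψ M (t * s) else 0 := by
      intro s
      show (∑ x : Tor d M, if x i = s then
        (w x : ℂ) * ψ M (∑ j ∈ Finset.univ.erase i, θ j * x j) else 0) * ψ M (t * s) = _
      rw [Finset.sum_mul]
      refine Finset.sum_congr rfl fun x _ => ?_
      split_ifs
      · rfl
      · rw [zero_mul]
    simp only [h1]
    rw [Finset.sum_comm]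
    unfold FF
    refine Finset.sum_congr rfl fun x _ => ?_
    rw [Finset.sum_ite_eq, if_pos (Finset.mem_univ _)]
    have h2 : dt (Function.update θ i t) x =
        (∑ j ∈ Finset.univ.erase i, θ j * x j) + t * x i := by
      unfold dt
      rw [← Finset.add_sum_erase _ _ (Finset.mem_univ i), Function.update_self, add_comm]
      congr 1
      refine Finset.sum_congr rfl fun j hj => ?_
      rw [Function.update_of_ne (Finset.ne_of_mem_erase hj)]
    rw [h2, AddChar.map_add_eq_mul]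
    ring
  have hθ : FF w θ = ∑ s, W s * ψ M (θ i * s) := by
    rw [← hF (θ i), Function.update_eq_self]
  -- the support
  let T : Finset (ZMod M) := Finset.univ.filter fun s => W s ≠ 0
  have hT : T.card ≤ 2 * ρ + 1 := by
    refine card_slab x0 ρ T fun s hs => ?_
    rw [Finset.mem_filter] at hs
    obtain ⟨x, -, hx⟩ := Finset.exists_ne_zero_of_sum_ne_zero hs.2
    have hxs : x i = s := by
      by_contra hcon
      rw [if_neg hcon] at hx
      exact hx rfl
    rw [if_pos hxs] at hx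
    have hwx : w x ≠ 0 := by
      intro h0
      rw [h0] at hx
      simp at hx
    rw [← hxs]
    exact hw x hwx
  have h1 : ‖FF w θ‖ ^ 2 ≤ (2 * ρ + 1) * ∑ s, ‖W s‖ ^ 2 := by
    have h2 : FF w θ = ∑ s ∈ T, W s * ψ M (θ i * s) := by
      rw [hθ]
      symm
      refine Finset.sum_subset (Finset.subset_univ _) fun s _ hs => ?_
      have h0 : W s = 0 := by
        by_contra hcon
        exact hs (Finset.mem_filter.mpr ⟨Finset.mem_univ _, hcon⟩)
      rw [h0, zero_mul]
    have h3 : ‖FF w θ‖ ≤ ∑ s ∈ T, ‖W s‖ := by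
      rw [h2]
      refine (norm_sum_le _ _).trans (Finset.sum_le_sum fun s _ => ?_)
      rw [norm_mul, AddChar.norm_apply, mul_one]
    have h4 : (∑ s ∈ T, ‖W s‖) ^ 2 ≤ T.card * ∑ s ∈ T, ‖W s‖ ^ 2 := sq_sum_le_card_mul_sum_sq
    have h5 : ∑ s ∈ T, ‖W s‖ ^ 2 ≤ ∑ s, ‖W s‖ ^ 2 :=
      Finset.sum_le_sum_of_subset_of_nonneg (Finset.subset_univ _) fun _ _ _ => sq_nonneg _
    have h6 : (T.card : ℝ) ≤ 2 * ρ + 1 := by exact_mod_cast hT
    calc ‖FF w θ‖ ^ 2 ≤ (∑ s ∈ T, ‖W s‖) ^ 2 := pow_le_pow_left₀ (norm_nonneg _) h3 2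
      _ ≤ T.card * ∑ s ∈ T, ‖W s‖ ^ 2 := h4
      _ ≤ (2 * ρ + 1) * ∑ s, ‖W s‖ ^ 2 :=
          mul_le_mul h6 h5 (Finset.sum_nonneg fun _ _ => sq_nonneg _) (by positivity)
  have h2 : ∑ t : ZMod M, ‖FF w (Function.update θ i t)‖ ^ 2 = M * ∑ s, ‖W s‖ ^ 2 := by
    simp only [hF]
    exact parseval W
  have h3 : ∑ t : ZMod M, ft w (Function.update θ i t) =
      (M * ∑ s, ‖W s‖ ^ 2) / (M : ℝ) ^ d := by
    simp only [ft_eq]
    rw [← Finset.sum_div, h2]
  rw [h3, ft_eq, ← mul_div_assoc, ← mul_div_assoc]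
  refine div_le_div_of_nonneg_right ?_ (by positivity)
  calc (M : ℝ) * ‖FF w θ‖ ^ 2 ≤ M * ((2 * ρ + 1) * ∑ s, ‖W s‖ ^ 2) :=
        mul_le_mul_of_nonneg_left h1 hM.le
    _ = _ := by ring

end Pool.Agent.IR.H34
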